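import Mathlib
import Pool.Agent.H43.G.R_seed8.H300R2.BH.Defs

/-!
Second moment of the tail of the singular series over a short box (task T8 of h300_tasks).
-/

namespace Pool.Agent.H415R2.BH

open Finset Polynomial
open Pool.Agent.H300R2.BH

/-- root count of `a + H` modulo `p` -/
noncomputable def rh (H : ℕ → ℤ) (a p : ℕ) : ℕ :=
  ((range p).filter (fun k : ℕ => (p : ℤ) ∣ (a : ℤ) + H k)).card

/-- local factor -/
noncomputable def tH (H : ℕ → ℤ) (p a : ℕ) : ℝ := (1 - (rh H a p : ℝ)) / ((p : ℝ) - 1)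

lemma rh_le (H : ℕ → ℤ) (a p : ℕ) : rh H a p ≤ p := by
  unfold rh
  exact (card_filter_le _ _).trans (by simp)

lemma dvd_mod_iff (p a : ℕ) (z : ℤ) : (p : ℤ) ∣ ((a % p : ℕ) : ℤ) + z ↔ (p : ℤ) ∣ (a : ℤ) + z := by
  have h2 : ((a % p + p * (a / p) : ℕ) : ℤ) = (a : ℤ) := by rw [Nat.mod_add_div]
  have h : (a : ℤ) + z = (((a % p : ℕ) : ℤ) + z) + (p : ℤ) * ((a / p : ℕ) : ℤ) := by
    rw [← h2]; push_cast; ring
  rw [h]
  exact (dvd_add_left (dvd_mul_right _ _)).symm

lemma rh_mod (H : ℕ → ℤ) (a p : ℕ) : rh H (a % p) p = rh H a p := by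
  unfold rh
  congr 1
  apply filter_congr
  intro k _
  exact dvd_mod_iff p a (H k)

lemma tH_mod (H : ℕ → ℤ) (p a : ℕ) : tH H p (a % p) = tH H p a := by
  unfold tH; rw [rh_mod]

/-- exactly one residue hits -/
lemma one_hit (p : ℕ) (hp : 0 < p) (z : ℤ) :
    ((range p).filter (fun a : ℕ => (p : ℤ) ∣ (a : ℤ) + z)).card = 1 := by
  rw [card_eq_one]
  refine ⟨((-z) % (p : ℤ)).toNat, ?_⟩
  have hp' : (0 : ℤ) < p := by exact_mod_cast hp
  have h0 : 0 ≤ (-z) % (p : ℤ) := Int.emod_nonneg _ hp'.ne'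
  have h1 : (-z) % (p : ℤ) < p := Int.emod_lt_of_pos _ hp'
  ext a
  simp only [mem_filter, mem_range, mem_singleton]
  constructor
  · rintro ⟨ha, hd⟩
    have : (a : ℤ) % p = (-z) % p := by
      rw [Int.emod_eq_emod_iff_emod_sub_eq_zero]
      apply Int.emod_eq_zero_of_dvd
      simpa using hd
    rw [Int.emod_eq_of_lt (by positivity) (by exact_mod_cast ha)] at this
    rw [← this]; simp
  · intro ha
    have hc : (a : ℤ) = (-z) % p := by rw [ha]; exact Int.toNat_of_nonneg h0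
    refine ⟨by exact_mod_cast (hc ▸ h1 : (a : ℤ) < p), ?_⟩
    rw [hc]
    have := Int.emod_add_mul_ediv (-z) p
    refine ⟨-((-z) / p), ?_⟩
    linarith

lemma sum_rh (H : ℕ → ℤ) (p : ℕ) (hp : 0 < p) : ∑ a ∈ range p, (rh H a p : ℝ) = p := by
  have : ∑ a ∈ range p, rh H a p = p := by
    unfold rh
    simp only [card_filter]
    rw [sum_comm]
    calc ∑ k ∈ range p, ∑ a ∈ range p, (if (p : ℤ) ∣ (a : ℤ) + H k then 1 else 0)
        = ∑ k ∈ range p, 1 := by
          apply sum_congr rfl; intro k _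
          rw [← card_filter]; exact one_hit p hp (H k)
      _ = p := by simp
  exact_mod_cast this

lemma sum_tH (H : ℕ → ℤ) (p : ℕ) (hp : 0 < p) : ∑ a ∈ range p, tH H p a = 0 := by
  unfold tH
  rw [← sum_div, sum_sub_distrib, sum_rh H p hp]
  simp

lemma abs_tH_le (H : ℕ → ℤ) (p a : ℕ) (hp : 2 ≤ p) : |tH H p a| ≤ 1 := by
  unfold tH
  have hp' : (2 : ℝ) ≤ p := by exact_mod_cast hp
  have h1 : (rh H a p : ℝ) ≤ p := by exact_mod_cast rh_le H a p
  have h0 : (0 : ℝ) ≤ rh H a p := by positivity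
  rw [abs_div, abs_of_pos (show (0 : ℝ) < (p : ℝ) - 1 by linarith), div_le_one (by linarith)]
  rw [abs_le]; constructor <;> linarith

/-- second moment with a bound for the root count -/
lemma sum_tH_sq (H : ℕ → ℤ) (p : ℕ) (hp : 2 ≤ p) (B : ℝ) (hB1 : 1 ≤ B)
    (hB : ∀ a, (rh H a p : ℝ) ≤ B) : ∑ a ∈ range p, (tH H p a) ^ 2 ≤ 2 * (B - 1) / ((p : ℝ) - 1) := by
  have hp' : (2 : ℝ) ≤ p := by exact_mod_cast hp
  unfold tH
  have h1 : ∑ a ∈ range p, ((1 - (rh H a p : ℝ)) / ((p : ℝ) - 1)) ^ 2 =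
      (∑ a ∈ range p, (1 - (rh H a p : ℝ)) ^ 2) / ((p : ℝ) - 1) ^ 2 := by
    rw [sum_div]; apply sum_congr rfl; intro a _; rw [div_pow]
  have h2 : ∑ a ∈ range p, (1 - (rh H a p : ℝ)) ^ 2 ≤ (B - 1) * p := by
    calc ∑ a ∈ range p, (1 - (rh H a p : ℝ)) ^ 2
        ≤ ∑ a ∈ range p, (1 + (B - 2) * (rh H a p : ℝ)) := by
          apply sum_le_sum; intro a _
          have h0 : (0 : ℝ) ≤ rh H a p := by positivity
          nlinarith [hB a, mul_le_mul_of_nonneg_left (hB a) h0]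
      _ = (B - 1) * p := by
          rw [sum_add_distrib, ← mul_sum, sum_rh H p (by omega)]
          simp; ring
  rw [h1, div_le_div_iff₀ (by nlinarith) (by linarith)]
  have h3 : (B - 1) * p ≤ 2 * (B - 1) * ((p : ℝ) - 1) := by nlinarith
  have h4 : (∑ a ∈ range p, (1 - (rh H a p : ℝ)) ^ 2) ≤ 2 * (B - 1) * ((p : ℝ) - 1) := h2.trans h3
  nlinarith [mul_le_mul_of_nonneg_right h4 (show (0 : ℝ) ≤ (p : ℝ) - 1 by linarith)]

/-- Chinese remainder for sums -/
lemma crt_sum (m n : ℕ) (hmn : Nat.Coprime m n) (hm : 0 < m) (hn : 0 < n) (u v : ℕ → ℝ)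
    (hu : ∀ a, u (a % m) = u a) (hv : ∀ a, v (a % n) = v a) :
    ∑ a ∈ range (m * n), u a * v a = (∑ a ∈ range m, u a) * (∑ a ∈ range n, v a) := by
  rw [Finset.sum_mul_sum, ← Finset.sum_product']
  refine Finset.sum_nbij' (fun a => (a % m, a % n))
    (fun x => (Nat.chineseRemainder hmn x.1 x.2 : ℕ)) ?_ ?_ ?_ ?_ ?_
  · intro a _
    simp only [mem_product, mem_range]
    exact ⟨Nat.mod_lt _ hm, Nat.mod_lt _ hn⟩
  · intro x _
    simp only [mem_range]
    exact Nat.chineseRemainder_lt_mul hmn _ _ hm.ne' hn.ne'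
  · intro a ha
    simp only [mem_range] at ha
    have h := Nat.chineseRemainder_modEq_unique hmn (Nat.mod_modEq a m).symm (Nat.mod_modEq a n).symm
    have h3 := Nat.chineseRemainder_lt_mul hmn (a % m) (a % n) hm.ne' hn.ne'
    exact (Nat.ModEq.eq_of_lt_of_lt h ha h3).symm
  · rintro ⟨x, y⟩ hx
    simp only [mem_product, mem_range] at hx
    have h := (Nat.chineseRemainder hmn x y).2
    have h1 : (Nat.chineseRemainder hmn x y : ℕ) % m = x := by
      have := h.1; unfold Nat.ModEq at this; rw [this, Nat.mod_eq_of_lt hx.1]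
    have h2 : (Nat.chineseRemainder hmn x y : ℕ) % n = y := by
      have := h.2; unfold Nat.ModEq at this; rw [this, Nat.mod_eq_of_lt hx.2]
    simp [h1, h2]
  · intro a _
    simp only [hu, hv]

lemma prod_period (s : Finset ℕ) (g : ℕ → ℕ → ℝ) (hg : ∀ p ∈ s, ∀ a, g p (a % p) = g p a) (a : ℕ) :
    ∏ p ∈ s, g p (a % ∏ p ∈ s, p) = ∏ p ∈ s, g p a := by
  apply prod_congr rfl
  intro p hp
  rw [← hg p hp, Nat.mod_mod_of_dvd _ (dvd_prod_of_mem _ hp), hg p hp]

lemma prod_sum (s : Finset ℕ) (hs : ∀ p ∈ s, p.Prime) (g : ℕ → ℕ → ℝ)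
    (hg : ∀ p ∈ s, ∀ a, g p (a % p) = g p a) :
    ∑ a ∈ range (∏ p ∈ s, p), ∏ p ∈ s, g p a = ∏ p ∈ s, ∑ a ∈ range p, g p a := by
  classical
  induction s using Finset.induction_on with
  | empty => simp
  | insert q s hq ih =>
    have ih' := ih (fun p hp => hs p (mem_insert_of_mem hp)) (fun p hp => hg p (mem_insert_of_mem hp))
    have hcop : Nat.Coprime q (∏ p ∈ s, p) := by
      apply Nat.Coprime.prod_right
      intro p hp
      rw [Nat.coprime_primes (hs q (mem_insert_self _ _)) (hs p (mem_insert_of_mem hp))]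
      rintro rfl; exact hq hp
    have hpos : 0 < ∏ p ∈ s, p := prod_pos (fun p hp => (hs p (mem_insert_of_mem hp)).pos)
    rw [prod_insert hq, prod_insert hq, ← ih',
      ← crt_sum q (∏ p ∈ s, p) hcop (hs q (mem_insert_self _ _)).pos hpos (g q)
        (fun a => ∏ p ∈ s, g p a) (hg q (mem_insert_self _ _))
        (fun a => prod_period s g (fun p hp => hg p (mem_insert_of_mem hp)) a)]
    apply sum_congr rfl
    intro a _
    rw [prod_insert hq]

lemma shift_sum (L : ℕ) (u : ℕ → ℝ) (hu : ∀ a, u (a + L) = u a) (c : ℕ) :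
    ∑ i ∈ range L, u (c + i) = ∑ i ∈ range L, u i := by
  induction c with
  | zero => simp
  | succ c ih =>
    rw [← ih]
    have h1 := Finset.sum_range_succ' (fun i => u (c + i)) L
    have h2 := Finset.sum_range_succ (fun i => u (c + i)) L
    rw [h2] at h1
    simp only [hu c, add_zero] at h1
    have : ∑ i ∈ range L, u (c + 1 + i) = ∑ i ∈ range L, u (c + (i + 1)) := by
      apply sum_congr rfl; intro i _; congr 1; ring
    rw [this]; linarith

lemma block_sum (L : ℕ) (u : ℕ → ℝ) (hu : ∀ a, u (a + L) = u a) (c m r : ℕ) :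
    ∑ i ∈ range (L * m + r), u (c + i) =
      m * ∑ i ∈ range L, u i + ∑ i ∈ range r, u (c + L * m + i) := by
  have key : ∀ m, ∑ i ∈ range (L * m), u (c + i) = m * ∑ i ∈ range L, u i := by
    intro m
    induction m with
    | zero => simp
    | succ m ih =>
      rw [Nat.mul_succ, Finset.sum_range_add, ih]
      have : ∑ i ∈ range L, u (c + (L * m + i)) = ∑ i ∈ range L, u i := by
        rw [← shift_sum L u hu (c + L * m)]
        apply sum_congr rfl; intro i _; congr 1; ring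
      rw [this]; push_cast; ring
  rw [Finset.sum_range_add, key]
  congr 1
  apply sum_congr rfl; intro i _; congr 1; ring

lemma period_of_mod (L : ℕ) (u : ℕ → ℝ) (hu : ∀ a, u (a % L) = u a) (a : ℕ) : u (a + L) = u a := by
  rw [← hu (a + L), Nat.add_mod_right, hu]

lemma Ioc_sum (u : ℕ → ℝ) (a0 A : ℕ) :
    ∑ a ∈ Ioc a0 (a0 + A), u a = ∑ i ∈ range A, u (a0 + 1 + i) := by
  rw [← Finset.sum_image (s := range A) (g := fun i => a0 + 1 + i) (f := u)]
  · apply sum_congr _ (fun _ _ => rfl)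
    ext x
    simp only [mem_Ioc, mem_image, mem_range]
    constructor
    · rintro ⟨h1, h2⟩; exact ⟨x - (a0 + 1), by omega, by omega⟩
    · rintro ⟨i, hi, rfl⟩; omega
  · intro x _ y _ h; simp only at h; omega

lemma Ioc_abs_le (L : ℕ) (hL : 0 < L) (u : ℕ → ℝ) (hu : ∀ a, u (a % L) = u a)
    (h1 : ∀ a, |u a| ≤ 1) (h0 : ∑ i ∈ range L, u i = 0) (a0 A : ℕ) :
    |∑ a ∈ Ioc a0 (a0 + A), u a| ≤ L := by
  rw [Ioc_sum]
  conv_lhs => rw [← Nat.div_add_mod A L]
  rw [block_sum L u (period_of_mod L u hu), h0, mul_zero, zero_add]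
  calc |∑ i ∈ range (A % L), u (a0 + 1 + L * (A / L) + i)|
      ≤ ∑ i ∈ range (A % L), |u (a0 + 1 + L * (A / L) + i)| := abs_sum_le_sum_abs _ _
    _ ≤ ∑ i ∈ range (A % L), (1 : ℝ) := sum_le_sum (fun i _ => h1 _)
    _ = ((A % L : ℕ) : ℝ) := by simp
    _ ≤ L := by exact_mod_cast (Nat.mod_lt A hL).le

lemma Ioc_le (L : ℕ) (hL : 0 < L) (u : ℕ → ℝ) (hu : ∀ a, u (a % L) = u a)
    (h1 : ∀ a, 0 ≤ u a) (a0 A : ℕ) :
    ∑ a ∈ Ioc a0 (a0 + A), u a ≤ ((A : ℝ) / L + 1) * ∑ i ∈ range L, u i := by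
  rw [Ioc_sum]
  have hL' : (0 : ℝ) < L := by exact_mod_cast hL
  have hS : 0 ≤ ∑ i ∈ range L, u i := sum_nonneg (fun i _ => h1 i)
  conv_lhs => rw [← Nat.div_add_mod A L]
  rw [block_sum L u (period_of_mod L u hu)]
  have h2 : ∑ i ∈ range (A % L), u (a0 + 1 + L * (A / L) + i) ≤ ∑ i ∈ range L, u i := by
    rw [← shift_sum L u (period_of_mod L u hu) (a0 + 1 + L * (A / L))]
    apply sum_le_sum_of_subset_of_nonneg
    · exact range_subset_range.mpr (Nat.mod_lt A hL).le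
    · intro i _ _; exact h1 _
  have h3 : ((A / L : ℕ) : ℝ) ≤ (A : ℝ) / L := Nat.cast_div_le
  nlinarith [mul_le_mul_of_nonneg_right h3 hS]

/-! ### the polynomials -/

/-- the varying part -/
noncomputable def HH (R : ℤ[X]) (j : ℕ) (σ : ℤ) (d : ℕ) (k : ℕ) : ℤ :=
  R.eval (k : ℤ) + σ * d * (k : ℤ) ^ j

lemma eval_FF (R : ℤ[X]) (j : ℕ) (σ : ℤ) (a d k : ℕ) :
    (FF R j σ a d).eval (k : ℤ) = (a : ℤ) + HH R j σ d k := by
  unfold FF HH
  simp
  ring

lemma rho_FF (R : ℤ[X]) (j : ℕ) (σ : ℤ) (a d p : ℕ) : rho (FF R j σ a d) p = rh (HH R j σ d) a p := by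
  unfold rho rh
  simp only [eval_FF]

lemma TT_FF (R : ℤ[X]) (j : ℕ) (σ : ℤ) (a d q : ℕ) :
    TT (FF R j σ a d) q = ∏ p ∈ q.primeFactors, tH (HH R j σ d) p a := by
  unfold TT tt tH
  simp only [rho_FF]

/-- off-diagonal terms -/
lemma off_diag (H : ℕ → ℤ) (q q' : ℕ) (hq : Squarefree q) (hq' : Squarefree q') (hne : q ≠ q')
    (a0 A : ℕ) :
    |∑ a ∈ Ioc a0 (a0 + A), (∏ p ∈ q.primeFactors, tH H p a) * (∏ p ∈ q'.primeFactors, tH H p a)|
      ≤ (q : ℝ) * q' := by
  classical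
  set s := q.primeFactors with hs
  set s' := q'.primeFactors with hs'
  have hps : ∀ p ∈ s, p.Prime := fun p hp => Nat.prime_of_mem_primeFactors hp
  have hps' : ∀ p ∈ s', p.Prime := fun p hp => Nat.prime_of_mem_primeFactors hp
  have hpU : ∀ p ∈ s ∪ s', p.Prime := by
    intro p hp
    rcases mem_union.1 hp with h | h
    · exact hps p h
    · exact hps' p h
  have hqs : ∏ p ∈ s, p = q := Nat.prod_primeFactors_of_squarefree hq
  have hqs' : ∏ p ∈ s', p = q' := Nat.prod_primeFactors_of_squarefree hq'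
  have hss : s ≠ s' := by
    intro h; apply hne; rw [← hqs, ← hqs', h]
  set g : ℕ → ℕ → ℝ := fun p a => (if p ∈ s then tH H p a else 1) * (if p ∈ s' then tH H p a else 1)
    with hg
  have hgp : ∀ p ∈ s ∪ s', ∀ a, g p (a % p) = g p a := by
    intro p _ a; simp only [hg, tH_mod]
  have hprod : ∀ a, (∏ p ∈ s, tH H p a) * (∏ p ∈ s', tH H p a) = ∏ p ∈ s ∪ s', g p a := by
    intro a
    simp only [hg]
    rw [prod_mul_distrib]
    congr 1
    · rw [prod_ite_mem, union_inter_cancel_left]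
    · rw [prod_ite_mem, union_inter_cancel_right]
  set L := ∏ p ∈ s ∪ s', p with hL
  have hLpos : 0 < L := prod_pos (fun p hp => (hpU p hp).pos)
  have hLle : L ≤ q * q' := by
    have h1 := prod_union_inter (s₁ := s) (s₂ := s') (f := fun p : ℕ => p)
    rw [hqs, hqs'] at h1
    have h2 : 1 ≤ ∏ p ∈ s ∩ s', p := prod_pos (fun p hp => (hps p (mem_inter.1 hp).1).pos)
    calc L = L * 1 := by ring
      _ ≤ L * ∏ p ∈ s ∩ s', p := Nat.mul_le_mul_left _ h2
      _ = q * q' := h1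
  have h0 : ∑ i ∈ range L, ∏ p ∈ s ∪ s', g p i = 0 := by
    rw [hL, prod_sum _ hpU g hgp]
    have hex : ∃ p ∈ s ∪ s', ¬ (p ∈ s ∧ p ∈ s') := by
      by_contra hcon
      push Not at hcon
      apply hss
      ext p
      constructor
      · intro hp; exact (hcon p (mem_union_left _ hp)).2
      · intro hp; exact (hcon p (mem_union_right _ hp)).1
    obtain ⟨p, hp, hnp⟩ := hex
    apply prod_eq_zero hp
    rcases mem_union.1 hp with h | h
    · have h' : p ∉ s' := fun h' => hnp ⟨h, h'⟩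
      simp only [hg, h, h', if_true, if_false, mul_one]
      exact sum_tH H p (hps p h).pos
    · have h' : p ∉ s := fun h' => hnp ⟨h', h⟩
      simp only [hg, h, h', if_true, if_false, one_mul]
      exact sum_tH H p (hps' p h).pos
  have hb : ∀ a, |∏ p ∈ s ∪ s', g p a| ≤ 1 := by
    intro a
    rw [abs_prod]
    apply prod_le_one (fun _ _ => abs_nonneg _)
    intro p hp
    have ht := abs_tH_le H p a (hpU p hp).two_le
    simp only [hg, abs_mul]
    have e1 : |if p ∈ s then tH H p a else 1| ≤ 1 := by split_ifs <;> simp [ht]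
    have e2 : |if p ∈ s' then tH H p a else 1| ≤ 1 := by split_ifs <;> simp [ht]
    exact mul_le_one₀ e1 (abs_nonneg _) e2
  simp only [hprod]
  calc _ ≤ (L : ℝ) := Ioc_abs_le L hLpos (fun a => ∏ p ∈ s ∪ s', g p a)
        (fun a => prod_period (s ∪ s') g hgp a) hb h0 a0 A
    _ ≤ ((q * q' : ℕ) : ℝ) := by exact_mod_cast hLle
    _ = (q : ℝ) * q' := by push_cast; ring

/-- number of roots modulo a prime -/
lemma rho_le_deg (F : ℤ[X]) (p : ℕ) (hp : p.Prime) (hF : F.map (Int.castRingHom (ZMod p)) ≠ 0) :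
    rho F p ≤ F.natDegree := by
  classical
  have := Fact.mk hp
  set G := F.map (Int.castRingHom (ZMod p)) with hG
  have h1 : rho F p ≤ G.roots.toFinset.card := by
    unfold rho
    apply card_le_card_of_injOn (fun k : ℕ => (k : ZMod p))
    · intro k hk
      simp only [coe_filter, mem_range, Set.mem_ofPred_eq] at hk
      simp only [mem_coe, Multiset.mem_toFinset]
      rw [mem_roots hF]
      unfold IsRoot
      have h2 : G.eval ((k : ℤ) : ZMod p) = ((F.eval (k : ℤ) : ℤ) : ZMod p) := by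
        rw [hG, eval_map, ← eq_intCast (Int.castRingHom (ZMod p)) (k : ℤ), eval₂_at_apply,
          eq_intCast]
      have h3 : ((F.eval (k : ℤ) : ℤ) : ZMod p) = 0 := (ZMod.intCast_zmod_eq_zero_iff_dvd _ _).2 hk.2
      rw [h3] at h2
      simpa using h2
    · intro k hk l hl h
      simp only [coe_filter, mem_range, Set.mem_ofPred_eq] at hk hl
      simp only at h
      rw [ZMod.natCast_eq_natCast_iff'] at h
      rwa [Nat.mod_eq_of_lt hk.1, Nat.mod_eq_of_lt hl.1] at h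
  calc rho F p ≤ G.roots.toFinset.card := h1
    _ ≤ Multiset.card G.roots := Multiset.toFinset_card_le _
    _ ≤ G.natDegree := card_roots' G
    _ ≤ F.natDegree := natDegree_map_le

lemma natDegree_FF (R : ℤ[X]) (j : ℕ) (hR : R.natDegree < j) (σ : ℤ) (a d : ℕ) :
    (FF R j σ a d).natDegree ≤ j := by
  unfold FF
  have h1 : (C (a : ℤ) + R).natDegree ≤ j := by
    apply (natDegree_add_le _ _).trans
    rw [natDegree_C]; omega
  have h2 : (C (σ * (d : ℤ)) * X ^ j).natDegree ≤ j := natDegree_C_mul_X_pow_le _ _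
  exact (natDegree_add_le _ _).trans (max_le h1 h2)

/-- local second moment -/
lemma local_sq (j : ℕ) (hj : 1 ≤ j) (R : ℤ[X]) (hR : R.natDegree < j) (σ : ℤ) (d p : ℕ)
    (hp : p.Prime) :
    ∑ a ∈ range p, (tH (HH R j σ d) p a) ^ 2 ≤
      4 * j * (if (p : ℤ) ∣ (R.eval 1 - R.eval 0) + σ * d then (p : ℝ) else 1) / p := by
  have hp2 : (2 : ℝ) ≤ p := by exact_mod_cast hp.two_le
  have hj' : (1 : ℝ) ≤ j := by exact_mod_cast hj
  split_ifs with hdvd
  · have h1 := sum_tH_sq (HH R j σ d) p hp.two_le p (by linarith)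
      (fun a => by exact_mod_cast rh_le _ a p)
    have e1 : 4 * (j : ℝ) * p / p = 4 * j := by field_simp
    rw [e1]
    have e2 : 2 * ((p : ℝ) - 1) / ((p : ℝ) - 1) = 2 := by
      have : (p : ℝ) - 1 ≠ 0 := by intro h; linarith
      field_simp
    rw [e2] at h1
    linarith
  · have h1 := sum_tH_sq (HH R j σ d) p hp.two_le j hj' (fun a => by
      have h2 : rh (HH R j σ d) a p ≤ j := by
        rw [← rho_FF R j σ a d p]
        apply (rho_le_deg _ p hp _).trans (natDegree_FF R j hR σ a d)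
        intro h0
        apply hdvd
        have := Fact.mk hp
        have ev : ∀ k : ℕ, (((FF R j σ a d).eval (k : ℤ) : ℤ) : ZMod p) = 0 := by
          intro k
          have h2 : ((FF R j σ a d).map (Int.castRingHom (ZMod p))).eval ((k : ℤ) : ZMod p) =
              (((FF R j σ a d).eval (k : ℤ) : ℤ) : ZMod p) := by
            rw [eval_map, ← eq_intCast (Int.castRingHom (ZMod p)) (k : ℤ), eval₂_at_apply,
              eq_intCast]
          rw [← h2, h0]; simp
        have e0 := (ZMod.intCast_zmod_eq_zero_iff_dvd _ _).1 (ev 0)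
        have e1 := (ZMod.intCast_zmod_eq_zero_iff_dvd _ _).1 (ev 1)
        have e2 := dvd_sub e1 e0
        rw [eval_FF, eval_FF] at e2
        unfold HH at e2
        have hj0 : j ≠ 0 := by omega
        simp only [Nat.cast_one, Nat.cast_zero, one_pow, mul_one, zero_pow hj0, mul_zero,
          add_zero] at e2
        have e3 : (a : ℤ) + (eval 1 R + σ * d) - (a + eval 0 R) = (eval 1 R - eval 0 R) + σ * d := by
          ring
        rwa [e3] at e2
      exact_mod_cast h2)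
    refine h1.trans ?_
    rw [div_le_div_iff₀ (by linarith) (by linarith)]
    nlinarith

/-- product over the primes dividing `q` -/
lemma diag_prod (j : ℕ) (hj : 1 ≤ j) (R : ℤ[X]) (hR : R.natDegree < j) (σ : ℤ) (d q : ℕ)
    (hq : Squarefree q) :
    ∏ p ∈ q.primeFactors, ∑ a ∈ range p, (tH (HH R j σ d) p a) ^ 2 ≤
      (4 * (j : ℝ)) ^ q.primeFactors.card *
        (Nat.gcd q ((R.eval 1 - R.eval 0) + σ * d).natAbs : ℝ) / q := by
  classical
  set z := (R.eval 1 - R.eval 0) + σ * d with hz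
  have hq0 : q ≠ 0 := hq.ne_zero
  calc ∏ p ∈ q.primeFactors, ∑ a ∈ range p, (tH (HH R j σ d) p a) ^ 2
      ≤ ∏ p ∈ q.primeFactors, (4 * (j : ℝ) * (if (p : ℤ) ∣ z then (p : ℝ) else 1) / p) := by
        apply prod_le_prod
        · intro p _; exact sum_nonneg (fun _ _ => sq_nonneg _)
        · intro p hp; exact local_sq j hj R hR σ d p (Nat.prime_of_mem_primeFactors hp)
    _ = (4 * (j : ℝ)) ^ q.primeFactors.card *
          (∏ p ∈ q.primeFactors, (if (p : ℤ) ∣ z then (p : ℝ) else 1)) / q := by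
        rw [prod_div_distrib, prod_mul_distrib, prod_const]
        congr 1
        rw [← Nat.cast_prod, Nat.prod_primeFactors_of_squarefree hq]
    _ ≤ _ := by
        apply div_le_div_of_nonneg_right _ (by positivity)
        apply mul_le_mul_of_nonneg_left _ (by positivity)
        rw [← prod_filter]
        have h1 : (∏ p ∈ q.primeFactors.filter (fun p : ℕ => (p : ℤ) ∣ z), p) ∣ Nat.gcd q z.natAbs := by
          apply Finset.prod_primes_dvd
          · intro p hp
            exact (Nat.prime_of_mem_primeFactors (mem_filter.1 hp).1).prime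
          · intro p hp
            rw [mem_filter] at hp
            exact Nat.dvd_gcd (Nat.dvd_of_mem_primeFactors hp.1) (Int.natCast_dvd.1 hp.2)
        have h2 := Nat.le_of_dvd (Nat.gcd_pos_of_pos_left _ (Nat.pos_of_ne_zero hq0)) h1
        rw [← Nat.cast_prod]
        exact Nat.cast_le.2 h2

/-- diagonal terms -/
lemma diag_le (j : ℕ) (hj : 1 ≤ j) (R : ℤ[X]) (hR : R.natDegree < j) (σ : ℤ) (d q : ℕ)
    (hq : Squarefree q) (a0 A : ℕ) (hqA : q ≤ A) :
    ∑ a ∈ Ioc a0 (a0 + A), (∏ p ∈ q.primeFactors, tH (HH R j σ d) p a) ^ 2 ≤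
      2 * (A : ℝ) / q * ((4 * (j : ℝ)) ^ q.primeFactors.card *
        (Nat.gcd q ((R.eval 1 - R.eval 0) + σ * d).natAbs : ℝ) / q) := by
  have hq0 : 0 < q := Nat.pos_of_ne_zero hq.ne_zero
  have hq0' : (0 : ℝ) < q := by exact_mod_cast hq0
  have hqs : ∏ p ∈ q.primeFactors, p = q := Nat.prod_primeFactors_of_squarefree hq
  have hgp : ∀ p ∈ q.primeFactors, ∀ a, (fun p a => (tH (HH R j σ d) p a) ^ 2) p (a % p) =
      (fun p a => (tH (HH R j σ d) p a) ^ 2) p a := by
    intro p _ a; simp only [tH_mod]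
  have h1 := Ioc_le q hq0 (fun a => ∏ p ∈ q.primeFactors, (tH (HH R j σ d) p a) ^ 2)
    (fun a => by
      have := prod_period q.primeFactors (fun p a => (tH (HH R j σ d) p a) ^ 2) hgp a
      rwa [hqs] at this)
    (fun a => prod_nonneg (fun _ _ => sq_nonneg _)) a0 A
  have h2 := prod_sum q.primeFactors (fun p hp => Nat.prime_of_mem_primeFactors hp)
    (fun p a => (tH (HH R j σ d) p a) ^ 2) hgp
  rw [hqs] at h2
  rw [h2] at h1
  have h3 : (A : ℝ) / q + 1 ≤ 2 * (A : ℝ) / q := by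
    have : (1 : ℝ) ≤ (A : ℝ) / q := by
      rw [le_div_iff₀ hq0']; rw [one_mul]; exact_mod_cast hqA
    have e : 2 * (A : ℝ) / q = (A : ℝ) / q + (A : ℝ) / q := by ring
    rw [e]; linarith
  have h4 := diag_prod j hj R hR σ d q hq
  have h5 : 0 ≤ ∏ p ∈ q.primeFactors, ∑ a ∈ range p, (tH (HH R j σ d) p a) ^ 2 :=
    prod_nonneg (fun p _ => sum_nonneg (fun _ _ => sq_nonneg _))
  calc ∑ a ∈ Ioc a0 (a0 + A), (∏ p ∈ q.primeFactors, tH (HH R j σ d) p a) ^ 2
      = ∑ a ∈ Ioc a0 (a0 + A), ∏ p ∈ q.primeFactors, (tH (HH R j σ d) p a) ^ 2 := by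
        apply sum_congr rfl; intro a _; rw [prod_pow]
    _ ≤ _ := h1
    _ ≤ 2 * (A : ℝ) / q * ∏ p ∈ q.primeFactors, ∑ a ∈ range p, (tH (HH R j σ d) p a) ^ 2 :=
        mul_le_mul_of_nonneg_right h3 h5
    _ ≤ _ := mul_le_mul_of_nonneg_left h4 (by positivity)

/-- sum over `d` of the gcd -/
lemma gcd_sum (c σ : ℤ) (hσ : σ = 1 ∨ σ = -1) (D q : ℕ) (hq : Squarefree q) :
    ∑ d ∈ Ioc D (2 * D), (Nat.gcd q (c + σ * d).natAbs : ℝ) ≤
      2 ^ q.primeFactors.card * ((D : ℝ) + q) := by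
  classical
  have hq0 : q ≠ 0 := hq.ne_zero
  have h1 : ∀ d ∈ Ioc D (2 * D), (Nat.gcd q (c + σ * d).natAbs : ℝ) ≤
      ∑ e ∈ q.divisors, (e : ℝ) * (if (e : ℤ) ∣ (d : ℤ) + σ * c then 1 else 0) := by
    intro d _
    set g := Nat.gcd q (c + σ * d).natAbs with hg
    have hgd : g ∈ q.divisors := Nat.mem_divisors.2 ⟨Nat.gcd_dvd_left _ _, hq0⟩
    have hg2 : (g : ℤ) ∣ (d : ℤ) + σ * c := by
      have h3 : (g : ℤ) ∣ c + σ * d := Int.natCast_dvd.2 (Nat.gcd_dvd_right _ _)
      have h4 : (d : ℤ) + σ * c = σ * (c + σ * d) := by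
        rcases hσ with rfl | rfl <;> ring
      rw [h4]; exact Dvd.dvd.mul_left h3 _
    calc (g : ℝ) = (g : ℝ) * (if (g : ℤ) ∣ (d : ℤ) + σ * c then 1 else 0) := by simp [hg2]
      _ ≤ _ := single_le_sum (f := fun e : ℕ => (e : ℝ) *
          (if (e : ℤ) ∣ (d : ℤ) + σ * c then (1 : ℝ) else 0)) (by
            intro e _; split_ifs <;> simp) hgd
  have hcard : (q.divisors.card : ℝ) = 2 ^ q.primeFactors.card := by
    rw [Nat.card_divisors hq0]
    have : ∀ x ∈ q.primeFactors, q.factorization x + 1 = 2 := by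
      intro x hx
      have hx1 := hq.natFactorization_le_one x
      have hx2 : 0 < q.factorization x :=
        (Nat.prime_of_mem_primeFactors hx).factorization_pos_of_dvd hq0 (Nat.dvd_of_mem_primeFactors hx)
      omega
    rw [prod_congr rfl this, prod_const]
    push_cast; ring
  calc ∑ d ∈ Ioc D (2 * D), (Nat.gcd q (c + σ * d).natAbs : ℝ)
      ≤ ∑ d ∈ Ioc D (2 * D), ∑ e ∈ q.divisors,
          (e : ℝ) * (if (e : ℤ) ∣ (d : ℤ) + σ * c then 1 else 0) := sum_le_sum h1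
    _ = ∑ e ∈ q.divisors, (e : ℝ) * ∑ d ∈ Ioc D (2 * D),
          (if (e : ℤ) ∣ (d : ℤ) + σ * c then (1 : ℝ) else 0) := by
        rw [sum_comm]; apply sum_congr rfl; intro e _; rw [mul_sum]
    _ ≤ ∑ e ∈ q.divisors, ((D : ℝ) + q) := by
        apply sum_le_sum
        intro e he
        have he0 : 0 < e := Nat.pos_of_mem_divisors he
        have he0' : (0 : ℝ) < e := by exact_mod_cast he0
        have heq : e ≤ q := Nat.divisor_le he
        have h5 := Ioc_le e he0 (fun d => if (e : ℤ) ∣ (d : ℤ) + σ * c then (1 : ℝ) else 0)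
          (fun a => by
            have hiff := dvd_mod_iff e a (σ * c)
            by_cases hc : (e : ℤ) ∣ (a : ℤ) + σ * c
            · rw [if_pos hc, if_pos (hiff.2 hc)]
            · rw [if_neg hc, if_neg (fun h => hc (hiff.1 h))])
          (fun a => by split_ifs <;> norm_num) D D
        rw [show D + D = 2 * D by ring] at h5
        have h6 : ∑ i ∈ range e, (if (e : ℤ) ∣ (i : ℤ) + σ * c then (1 : ℝ) else 0) = 1 := by
          have := one_hit e he0 (σ * c)
          rw [card_filter] at this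
          exact_mod_cast this
        rw [h6, mul_one] at h5
        calc (e : ℝ) * ∑ d ∈ Ioc D (2 * D), (if (e : ℤ) ∣ (d : ℤ) + σ * c then (1 : ℝ) else 0)
            ≤ (e : ℝ) * ((D : ℝ) / e + 1) := mul_le_mul_of_nonneg_left h5 he0'.le
          _ = (D : ℝ) + e := by field_simp
          _ ≤ (D : ℝ) + q := by
            have : (e : ℝ) ≤ q := by exact_mod_cast heq
            linarith
    _ = 2 ^ q.primeFactors.card * ((D : ℝ) + q) := by
        rw [sum_const, nsmul_eq_mul, hcard]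

/-! ### sums over squarefree numbers -/

lemma W_step (m Z : ℕ) :
    ∑ q ∈ (Icc 1 Z).filter Squarefree, ((m + 1 : ℕ) : ℝ) ^ q.primeFactors.card / q ≤
      (∑ q ∈ (Icc 1 Z).filter Squarefree, (m : ℝ) ^ q.primeFactors.card / q) *
        ∑ n ∈ Icc 1 Z, (1 : ℝ) / n := by
  classical
  set S := (Icc 1 Z).filter Squarefree with hS
  have h1 : ∑ q ∈ S, ((m + 1 : ℕ) : ℝ) ^ q.primeFactors.card / q =
      ∑ x ∈ S.sigma (fun q => q.primeFactors.powerset), (m : ℝ) ^ x.2.card / x.1 := by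
    rw [sum_sigma]
    apply sum_congr rfl
    intro q _
    change ((m + 1 : ℕ) : ℝ) ^ q.primeFactors.card / q =
      ∑ s ∈ q.primeFactors.powerset, (m : ℝ) ^ s.card / (q : ℝ)
    rw [← sum_div]
    congr 1
    have := Finset.sum_pow_mul_eq_add_pow (m : ℝ) 1 q.primeFactors
    simp only [one_pow, mul_one] at this
    push_cast
    exact this.symm
  rw [h1, Finset.sum_mul_sum, ← Finset.sum_product']
  set φ : (Σ _ : ℕ, Finset ℕ) → ℕ × ℕ := fun x => (∏ p ∈ x.2, p, x.1 / ∏ p ∈ x.2, p) with hφ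
  have facts : ∀ x ∈ S.sigma (fun q => q.primeFactors.powerset),
      (∏ p ∈ x.2, p) ∣ x.1 ∧ (∏ p ∈ x.2, p).primeFactors = x.2 ∧ Squarefree (∏ p ∈ x.2, p) ∧
        1 ≤ x.1 ∧ x.1 ≤ Z ∧ 1 ≤ ∏ p ∈ x.2, p := by
    intro x hx
    rw [mem_sigma, mem_powerset, hS, mem_filter, mem_Icc] at hx
    obtain ⟨⟨⟨hx1, hx2⟩, hx3⟩, hx4⟩ := hx
    have hpr : ∀ p ∈ x.2, p.Prime := fun p hp => Nat.prime_of_mem_primeFactors (hx4 hp)
    have hd : (∏ p ∈ x.2, p) ∣ x.1 := by
      have := prod_dvd_prod_of_subset x.2 x.1.primeFactors (fun p => p) hx4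
      rwa [Nat.prod_primeFactors_of_squarefree hx3] at this
    exact ⟨hd, Nat.primeFactors_prod hpr, hx3.squarefree_of_dvd hd, hx1, hx2,
      prod_pos (fun p hp => (hpr p hp).pos)⟩
  have hinj : Set.InjOn φ (S.sigma (fun q => q.primeFactors.powerset) : Finset (Σ _ : ℕ, Finset ℕ)) := by
    intro x hx y hy hxy
    have fx := facts x (mem_coe.1 hx)
    have fy := facts y (mem_coe.1 hy)
    simp only [hφ, Prod.mk.injEq] at hxy
    have e2 : x.2 = y.2 := by rw [← fx.2.1, ← fy.2.1, hxy.1]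
    have e1 : x.1 = y.1 := by
      rw [← Nat.mul_div_cancel' fx.1, ← Nat.mul_div_cancel' fy.1, hxy.2, hxy.1]
    cases x; cases y
    simp only at e1 e2
    subst e1; subst e2; rfl
  have h2 : ∑ x ∈ S.sigma (fun q => q.primeFactors.powerset), (m : ℝ) ^ x.2.card / x.1 =
      ∑ y ∈ (S.sigma (fun q => q.primeFactors.powerset)).image φ,
        (m : ℝ) ^ y.1.primeFactors.card / y.1 * (1 / (y.2 : ℝ)) := by
    rw [sum_image hinj]
    apply sum_congr rfl
    intro x hx
    have fx := facts x hx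
    simp only [hφ]
    rw [fx.2.1]
    have e1 : (x.1 : ℝ) = ((∏ p ∈ x.2, p : ℕ) : ℝ) * ((x.1 / ∏ p ∈ x.2, p : ℕ) : ℝ) := by
      rw [← Nat.cast_mul, Nat.mul_div_cancel' fx.1]
    rw [div_mul_div_comm, mul_one, ← e1]
  rw [h2]
  apply sum_le_sum_of_subset_of_nonneg
  · intro y hy
    rw [mem_image] at hy
    obtain ⟨x, hx, rfl⟩ := hy
    have fx := facts x hx
    simp only [hφ, mem_product, hS, mem_filter, mem_Icc]
    refine ⟨⟨⟨fx.2.2.2.2.2, (Nat.le_of_dvd fx.2.2.2.1 fx.1).trans fx.2.2.2.2.1⟩, fx.2.2.1⟩, ?_, ?_⟩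
    · exact Nat.div_pos (Nat.le_of_dvd fx.2.2.2.1 fx.1) fx.2.2.2.2.2
    · exact (Nat.div_le_self _ _).trans fx.2.2.2.2.1
  · intro y _ _
    positivity

lemma harm_le (Z : ℕ) : ∑ n ∈ Icc 1 Z, (1 : ℝ) / n ≤ 1 + Real.log Z := by
  have h := harmonic_le_one_add_log Z
  rw [harmonic_eq_sum_Icc] at h
  push_cast at h
  simpa [one_div] using h

lemma W_le (Z : ℕ) (m : ℕ) (hm : 1 ≤ m) :
    ∑ q ∈ (Icc 1 Z).filter Squarefree, (m : ℝ) ^ q.primeFactors.card / q ≤
      (1 + Real.log Z) ^ m := by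
  have hlog : 0 ≤ Real.log Z := Real.log_natCast_nonneg Z
  induction m, hm using Nat.le_induction with
  | base =>
    simp only [Nat.cast_one, one_pow, pow_one]
    refine le_trans ?_ (harm_le Z)
    apply sum_le_sum_of_subset_of_nonneg (filter_subset _ _)
    intro i _ _; positivity
  | succ m hm ih =>
    refine (W_step m Z).trans ?_
    rw [pow_succ]
    apply mul_le_mul ih (harm_le Z)
    · apply sum_nonneg; intro i _; positivity
    · positivity

/-- T8 -/
theorem sing_l2 (j : ℕ) (hj : 1 ≤ j) (R : ℤ[X]) (hR : R.natDegree < j) (σ : ℤ)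
    (hσ : σ = 1 ∨ σ = -1) (A D a0 Q Z z : ℕ) (hQ : 1 ≤ Q) (hQZ : Q ≤ Z) (hZA : Z ≤ A)
    (hD : 1 ≤ D) :
    ∑ a ∈ Ioc a0 (a0 + A), ∑ d ∈ Ioc D (2 * D),
      (∑ q ∈ (Ioc Q Z).filter (fun q => Squarefree q ∧ ∀ p ∈ q.primeFactors, p ≤ z),
        TT (FF R j σ a d) q) ^ 2 ≤
      4 * (A : ℝ) * ((D : ℝ) / Q + 1) * (1 + Real.log Z) ^ (8 * j) + (D : ℝ) * (Z : ℝ) ^ 4 := by
  classical
  set W := (Ioc Q Z).filter (fun q => Squarefree q ∧ ∀ p ∈ q.primeFactors, p ≤ z) with hW
  have hWm : ∀ q ∈ W, Squarefree q ∧ Q < q ∧ q ≤ Z := by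
    intro q hq
    rw [hW, mem_filter, mem_Ioc] at hq
    exact ⟨hq.2.1, hq.1.1, hq.1.2⟩
  have hWcard : (W.card : ℝ) ≤ Z := by
    have : W.card ≤ Z := by
      calc W.card ≤ (Ioc Q Z).card := card_filter_le _ _
        _ = Z - Q := by simp
        _ ≤ Z := Nat.sub_le _ _
    exact_mod_cast this
  have hlog : 0 ≤ Real.log Z := Real.log_natCast_nonneg Z
  have hQ' : (1 : ℝ) ≤ Q := by exact_mod_cast hQ
  have hA0 : (0 : ℝ) ≤ A := Nat.cast_nonneg A
  have hD0 : (0 : ℝ) ≤ D := Nat.cast_nonneg D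
  -- for fixed d
  have hfix : ∀ d : ℕ, ∑ a ∈ Ioc a0 (a0 + A), (∑ q ∈ W, TT (FF R j σ a d) q) ^ 2 ≤
      ∑ q ∈ W, 2 * (A : ℝ) / q * ((4 * (j : ℝ)) ^ q.primeFactors.card *
        (Nat.gcd q ((R.eval 1 - R.eval 0) + σ * d).natAbs : ℝ) / q) + (Z : ℝ) ^ 4 := by
    intro d
    set P : ℕ → ℕ → ℝ := fun q a => ∏ p ∈ q.primeFactors, tH (HH R j σ d) p a with hP
    have e1 : ∑ a ∈ Ioc a0 (a0 + A), (∑ q ∈ W, TT (FF R j σ a d) q) ^ 2 =
        ∑ q ∈ W, ∑ q' ∈ W, ∑ a ∈ Ioc a0 (a0 + A), P q a * P q' a := by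
      have : ∀ a, (∑ q ∈ W, TT (FF R j σ a d) q) ^ 2 = ∑ q ∈ W, ∑ q' ∈ W, P q a * P q' a := by
        intro a
        rw [sq, sum_mul_sum]
        simp only [TT_FF, hP]
      simp only [this]
      rw [sum_comm]
      apply sum_congr rfl; intro q _
      rw [sum_comm]
    rw [e1]
    have e2 : ∀ q ∈ W, ∑ q' ∈ W, ∑ a ∈ Ioc a0 (a0 + A), P q a * P q' a ≤
        2 * (A : ℝ) / q * ((4 * (j : ℝ)) ^ q.primeFactors.card *
          (Nat.gcd q ((R.eval 1 - R.eval 0) + σ * d).natAbs : ℝ) / q) + (Z : ℝ) ^ 3 := by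
      intro q hq
      obtain ⟨hq1, hq2, hq3⟩ := hWm q hq
      rw [← add_sum_erase W _ hq]
      apply add_le_add
      · have := diag_le j hj R hR σ d q hq1 a0 A (hq3.trans hZA)
        refine le_trans (le_of_eq ?_) this
        apply sum_congr rfl; intro a _; rw [hP]; ring
      · calc ∑ q' ∈ W.erase q, ∑ a ∈ Ioc a0 (a0 + A), P q a * P q' a
            ≤ ∑ q' ∈ W.erase q, (Z : ℝ) ^ 2 := by
              apply sum_le_sum
              intro q' hq'
              have hq'W := mem_of_mem_erase hq'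
              obtain ⟨hq'1, hq'2, hq'3⟩ := hWm q' hq'W
              have hne : q ≠ q' := fun h => (ne_of_mem_erase hq') h.symm
              have hb := off_diag (HH R j σ d) q q' hq1 hq'1 hne a0 A
              have c1 : (q : ℝ) ≤ Z := by exact_mod_cast hq3
              have c2 : (q' : ℝ) ≤ Z := by exact_mod_cast hq'3
              calc _ ≤ _ := le_abs_self _
                _ ≤ (q : ℝ) * q' := hb
                _ ≤ (Z : ℝ) * Z := mul_le_mul c1 c2 (Nat.cast_nonneg _) (Nat.cast_nonneg _)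
                _ = (Z : ℝ) ^ 2 := by ring
          _ = ((W.erase q).card : ℝ) * (Z : ℝ) ^ 2 := by rw [sum_const, nsmul_eq_mul]
          _ ≤ (Z : ℝ) * (Z : ℝ) ^ 2 := by
              apply mul_le_mul_of_nonneg_right _ (by positivity)
              have : ((W.erase q).card : ℝ) ≤ W.card := by exact_mod_cast card_erase_le
              linarith
          _ = (Z : ℝ) ^ 3 := by ring
    calc ∑ q ∈ W, ∑ q' ∈ W, ∑ a ∈ Ioc a0 (a0 + A), P q a * P q' a
        ≤ ∑ q ∈ W, (2 * (A : ℝ) / q * ((4 * (j : ℝ)) ^ q.primeFactors.card *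
          (Nat.gcd q ((R.eval 1 - R.eval 0) + σ * d).natAbs : ℝ) / q) + (Z : ℝ) ^ 3) := sum_le_sum e2
      _ = ∑ q ∈ W, 2 * (A : ℝ) / q * ((4 * (j : ℝ)) ^ q.primeFactors.card *
          (Nat.gcd q ((R.eval 1 - R.eval 0) + σ * d).natAbs : ℝ) / q) + W.card * (Z : ℝ) ^ 3 := by
          rw [sum_add_distrib, sum_const, nsmul_eq_mul]
      _ ≤ _ := by
          have : (W.card : ℝ) * (Z : ℝ) ^ 3 ≤ (Z : ℝ) * (Z : ℝ) ^ 3 :=
            mul_le_mul_of_nonneg_right hWcard (by positivity)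
          have e : (Z : ℝ) * (Z : ℝ) ^ 3 = (Z : ℝ) ^ 4 := by ring
          linarith
  rw [sum_comm]
  calc ∑ d ∈ Ioc D (2 * D), ∑ a ∈ Ioc a0 (a0 + A), (∑ q ∈ W, TT (FF R j σ a d) q) ^ 2
      ≤ ∑ d ∈ Ioc D (2 * D), (∑ q ∈ W, 2 * (A : ℝ) / q * ((4 * (j : ℝ)) ^ q.primeFactors.card *
        (Nat.gcd q ((R.eval 1 - R.eval 0) + σ * d).natAbs : ℝ) / q) + (Z : ℝ) ^ 4) :=
        sum_le_sum (fun d _ => hfix d)
    _ = ∑ q ∈ W, 2 * (A : ℝ) / q * ((4 * (j : ℝ)) ^ q.primeFactors.card / q) *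
          ∑ d ∈ Ioc D (2 * D), (Nat.gcd q ((R.eval 1 - R.eval 0) + σ * d).natAbs : ℝ) +
          (D : ℝ) * (Z : ℝ) ^ 4 := by
        rw [sum_add_distrib, sum_comm]
        congr 1
        · apply sum_congr rfl; intro q _
          rw [mul_sum]
          apply sum_congr rfl; intro d _; ring
        · rw [sum_const, nsmul_eq_mul]
          congr 1
          rw [Nat.card_Ioc]
          congr 1; omega
    _ ≤ ∑ q ∈ W, (2 * (A : ℝ) * ((D : ℝ) / Q + 1)) * (((8 * j : ℕ) : ℝ) ^ q.primeFactors.card / q) +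
          (D : ℝ) * (Z : ℝ) ^ 4 := by
        apply add_le_add_left
        apply sum_le_sum
        intro q hq
        obtain ⟨hq1, hq2, hq3⟩ := hWm q hq
        have hg := gcd_sum (R.eval 1 - R.eval 0) σ hσ D q hq1
        have hq0 : (0 : ℝ) < q := by exact_mod_cast (Nat.pos_of_ne_zero hq1.ne_zero)
        have hqQ : (Q : ℝ) ≤ q := by exact_mod_cast hq2.le
        calc 2 * (A : ℝ) / q * ((4 * (j : ℝ)) ^ q.primeFactors.card / q) *
              ∑ d ∈ Ioc D (2 * D), (Nat.gcd q ((R.eval 1 - R.eval 0) + σ * d).natAbs : ℝ)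
            ≤ 2 * (A : ℝ) / q * ((4 * (j : ℝ)) ^ q.primeFactors.card / q) *
              (2 ^ q.primeFactors.card * ((D : ℝ) + q)) :=
              mul_le_mul_of_nonneg_left hg (by positivity)
          _ = (2 * (A : ℝ) * ((D : ℝ) / q + 1)) * (((8 * j : ℕ) : ℝ) ^ q.primeFactors.card / q) := by
              have : ((8 * j : ℕ) : ℝ) = 4 * (j : ℝ) * 2 := by push_cast; ring
              rw [this, mul_pow (4 * (j : ℝ)) 2]
              field_simp
          _ ≤ _ := by
              apply mul_le_mul_of_nonneg_right _ (by positivity)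
              apply mul_le_mul_of_nonneg_left _ (by positivity)
              have : (D : ℝ) / q ≤ (D : ℝ) / Q := div_le_div_of_nonneg_left hD0 (by linarith) hqQ
              linarith
    _ ≤ (2 * (A : ℝ) * ((D : ℝ) / Q + 1)) * (1 + Real.log Z) ^ (8 * j) + (D : ℝ) * (Z : ℝ) ^ 4 := by
        apply add_le_add_left
        rw [← mul_sum]
        apply mul_le_mul_of_nonneg_left _ (by positivity)
        refine le_trans ?_ (W_le Z (8 * j) (by omega))
        apply sum_le_sum_of_subset_of_nonneg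
        · intro q hq
          obtain ⟨hq1, hq2, hq3⟩ := hWm q hq
          rw [mem_filter, mem_Icc]
          exact ⟨⟨by omega, hq3⟩, hq1⟩
        · intro q _ _; positivity
    _ ≤ _ := by
        apply add_le_add_left
        have h1 : 0 ≤ (A : ℝ) * ((D : ℝ) / Q + 1) * (1 + Real.log Z) ^ (8 * j) := by positivity
        nlinarith

end Pool.Agent.H415R2.BH
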